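import Pool.Agent.helper1.T1N.SpecN

set_option autoImplicit false

open MeasureTheory Finset

namespace Pool.Agent.T1N

theorem NCT_floor (δ x y : ℝ) (hδ : 0 < δ) (h : ⌊x / δ⌋ = ⌊y / δ⌋) : |x - y| < δ := by
  have h1 := Int.abs_sub_lt_one_of_floor_eq_floor h
  rw [← sub_div, abs_div, abs_of_pos hδ, div_lt_one hδ] at h1
  exact h1

theorem NCT_card (δ α a : ℝ) (hδ : 0 < δ) (hα : 0 ≤ α) :
    ((Finset.Icc ⌊(a - α) / δ⌋ ⌊(a + α) / δ⌋).card : ℝ) ≤ 2 * (1 + α / δ) := by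
  have hle : ⌊(a - α) / δ⌋ ≤ ⌊(a + α) / δ⌋ := Int.floor_le_floor (div_le_div_of_nonneg_right (by linarith) hδ.le)
  rw [Int.card_Icc]
  have h0 : (0 : ℤ) ≤ ⌊(a + α) / δ⌋ + 1 - ⌊(a - α) / δ⌋ := by linarith
  have h1 : (((⌊(a + α) / δ⌋ + 1 - ⌊(a - α) / δ⌋).toNat : ℕ) : ℝ) = ((⌊(a + α) / δ⌋ + 1 - ⌊(a - α) / δ⌋ : ℤ) : ℝ) := by
    have := Int.toNat_of_nonneg h0
    exact_mod_cast congrArg (fun z : ℤ => (z : ℝ)) this
  rw [h1]
  push_cast
  have h2 := Int.floor_le ((a + α) / δ)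
  have h3 := Int.lt_floor_add_one ((a - α) / δ)
  have h4 : (a + α) / δ = a / δ + α / δ := add_div _ _ _
  have h5 : (a - α) / δ = a / δ - α / δ := sub_div _ _ _
  rw [h4] at h2 ⊢
  rw [h5] at h3 ⊢
  linarith

theorem NCT_mem (δ α a x : ℝ) (hδ : 0 < δ) (h : |x - a| ≤ α) : ⌊x / δ⌋ ∈ Finset.Icc ⌊(a - α) / δ⌋ ⌊(a + α) / δ⌋ := by
  rw [abs_le] at h
  rw [Finset.mem_Icc]
  exact ⟨Int.floor_le_floor (div_le_div_of_nonneg_right (by linarith) hδ.le),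
    Int.floor_le_floor (div_le_div_of_nonneg_right (by linarith) hδ.le)⟩

theorem NCT_proof : NCT_stmt := by
  intro δ α β a b S hδ hα hβ hS
  set Q : Finset (ℝ × ℝ) := (S ×ˢ S).filter fun q => |q.1 + q.2 - a| ≤ α ∧ |q.1 - q.2 - b| ≤ β with hQ
  have hcard : Q.card ≤ (Finset.Icc ⌊(a - α) / δ⌋ ⌊(a + α) / δ⌋ ×ˢ Finset.Icc ⌊(b - β) / δ⌋ ⌊(b + β) / δ⌋).card := by
    refine Finset.card_le_card_of_injOn (fun q => (⌊(q.1 + q.2) / δ⌋, ⌊(q.1 - q.2) / δ⌋)) ?_ ?_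
    · intro q hq
      have hq' : q ∈ Q := hq
      rw [hQ, Finset.mem_filter] at hq'
      refine Finset.mem_coe.mpr (Finset.mem_product.mpr ⟨?_, ?_⟩)
      · exact NCT_mem δ α a _ hδ hq'.2.1
      · exact NCT_mem δ β b _ hδ hq'.2.2
    · intro q hq q' hq' heq
      have hq1 : q ∈ Q := hq
      have hq2 : q' ∈ Q := hq'
      rw [hQ, Finset.mem_filter, Finset.mem_product] at hq1 hq2
      simp only [Prod.mk.injEq] at heq
      have e1 := abs_lt.mp (NCT_floor δ _ _ hδ heq.1)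
      have e2 := abs_lt.mp (NCT_floor δ _ _ hδ heq.2)
      have f1 : q.1 = q'.1 := by
        by_contra hne
        have h1 := hS _ hq1.1.1 _ hq2.1.1 hne
        have h2 : |q.1 - q'.1| < δ := by
          rw [abs_lt]
          constructor <;> linarith
        linarith
      have f2 : q.2 = q'.2 := by
        by_contra hne
        have h1 := hS _ hq1.1.2 _ hq2.1.2 hne
        have h2 : |q.2 - q'.2| < δ := by
          rw [abs_lt]
          constructor <;> linarith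
        linarith
      exact Prod.ext f1 f2
  rw [Finset.card_product] at hcard
  have h1 := NCT_card δ α a hδ hα
  have h2 := NCT_card δ β b hδ hβ
  have h3 : (Q.card : ℝ) ≤ ((Finset.Icc ⌊(a - α) / δ⌋ ⌊(a + α) / δ⌋).card : ℝ) * ((Finset.Icc ⌊(b - β) / δ⌋ ⌊(b + β) / δ⌋).card : ℝ) := by
    exact_mod_cast hcard
  have h4 : 0 ≤ α / δ := div_nonneg hα hδ.le
  calc (Q.card : ℝ) ≤ _ := h3
    _ ≤ (2 * (1 + α / δ)) * (2 * (1 + β / δ)) := mul_le_mul h1 h2 (by positivity) (by positivity)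
    _ = 4 * (1 + α / δ) * (1 + β / δ) := by ring

end Pool.Agent.T1N
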